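import Pool.Agent.E8helper36.CF.Stm

/-!
# Project CF, piece POT: the change of the weight (helper82)
-/

set_option autoImplicit false

namespace Pool.Agent.E8helper36.CF

set_option maxHeartbeats 4000000 in
theorem t_POT : S_POT := by
  intro n hn M M' a b c d hab hbc hcd h1 h2 h3 h4 h
  have had : a < d := hab.trans (hbc.trans hcd)
  have p1 := parity M hab h.ab
  have p2 := parity M hcd h.cd
  have p3 := parity M' hbc h.bc
  have p4 := parity M' had h.ad
  have e : Pot M' - Pot M = (wt M' a - wt M a) + ((wt M' b - wt M b) + ((wt M' c - wt M c) +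
      (wt M' d - wt M d))) := by
    unfold Pot
    rw [← Finset.sum_sub_distrib]
    rw [← Finset.sum_subset (Finset.subset_univ {a, b, c, d})]
    · rw [Finset.sum_insert, Finset.sum_insert, Finset.sum_insert, Finset.sum_singleton]
      · simp [hcd.ne]
      · simp [hbc.ne, (hbc.trans hcd).ne]
      · simp [hab.ne, (hab.trans hbc).ne, had.ne]
    · intro x _ hx
      simp only [Finset.mem_insert, Finset.mem_singleton, not_or] at hx
      rw [wt_congr (h.rest x hx.1 hx.2.1 hx.2.2.1 hx.2.2.2), sub_self]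
  rw [wt_fst hab h.ab, wt_snd hab h.ab, wt_fst hcd h.cd, wt_snd hcd h.cd, wt_fst hbc h.bc,
    wt_snd hbc h.bc, wt_fst had h.ad, wt_snd had h.ad] at e
  obtain ⟨k, hk⟩ := hn
  have hab' : (a : ℕ) < b := hab
  have hbc' : (b : ℕ) < c := hbc
  have hcd' : (c : ℕ) < d := hcd
  have hd' := d.2
  rw [if_neg (by omega : ¬ (2 * n + ((a : ℕ) : ℤ) - (b : ℕ) < n)),
    if_neg (by omega : ¬ (2 * n + ((c : ℕ) : ℤ) - (d : ℕ) < n)),
    if_neg (by omega : ¬ (2 * n + ((b : ℕ) : ℤ) - (c : ℕ) < n)),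
    if_neg (by omega : ¬ (((d : ℕ) : ℤ) - (a : ℕ) < n))] at e
  rcases Nat.mod_two_eq_zero_or_one (a : ℕ) with hpar | hpar
  · rw [if_pos hpar, if_neg (by omega : ¬ (b : ℕ) % 2 = 0), if_pos (by omega : (c : ℕ) % 2 = 0),
      if_neg (by omega : ¬ (d : ℕ) % 2 = 0)] at e
    rw [if_pos hpar, if_pos hpar]
    refine ⟨fun hd => ?_, fun hd => ?_⟩
    · split_ifs at e <;> omega
    · split_ifs at e <;> omega
  · rw [if_neg (by omega : ¬ (a : ℕ) % 2 = 0), if_pos (by omega : (b : ℕ) % 2 = 0),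
      if_neg (by omega : ¬ (c : ℕ) % 2 = 0), if_pos (by omega : (d : ℕ) % 2 = 0)] at e
    rw [if_neg (by omega : ¬ (a : ℕ) % 2 = 0), if_neg (by omega : ¬ (a : ℕ) % 2 = 0)]
    refine ⟨fun hd => ?_, fun hd => ?_⟩
    · split_ifs at e <;> omega
    · split_ifs at e <;> omega

end Pool.Agent.E8helper36.CF
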